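import Mathlib
import Pool.Agent.H800Z.Erg.St

/-! Decay at `0` of bounded solutions of the equation `r'' = 4 r' - l r / t^2`. -/

set_option autoImplicit false

open Filter Topology Set

namespace Pool.Agent.H586Z.Ode

lemma le_of_deriv {f f' : ℝ → ℝ} {a b : ℝ} (hab : a ≤ b)
    (hd : ∀ t, a ≤ t → t ≤ b → HasDerivAt f (f' t) t) (h : ∀ t, a ≤ t → t ≤ b → 0 ≤ f' t) :
    f a ≤ f b := by
  rcases hab.eq_or_lt with rfl | hlt
  · exact le_rfl
  obtain ⟨c, hc, hc'⟩ := exists_hasDerivAt_eq_slope f f' hlt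
    (fun t ht => (hd t ht.1 ht.2).continuousAt.continuousWithinAt)
    (fun t ht => hd t ht.1.le ht.2.le)
  have h1 := h c hc.1.le hc.2.le
  rw [hc'] at h1
  have h2 : 0 < b - a := sub_pos.2 hlt
  have := (div_nonneg_iff.1 h1)
  rcases this with h3 | h3
  · linarith [h3.1]
  · linarith [h3.2]

lemma lt_of_deriv {f f' : ℝ → ℝ} {a b : ℝ} (hlt : a < b)
    (hd : ∀ t, a ≤ t → t ≤ b → HasDerivAt f (f' t) t) (h : ∀ t, a ≤ t → t ≤ b → 0 < f' t) :
    f a < f b := by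
  obtain ⟨c, hc, hc'⟩ := exists_hasDerivAt_eq_slope f f' hlt
    (fun t ht => (hd t ht.1 ht.2).continuousAt.continuousWithinAt)
    (fun t ht => hd t ht.1.le ht.2.le)
  have h1 := h c hc.1.le hc.2.le
  rw [hc'] at h1
  have h2 : 0 < b - a := sub_pos.2 hlt
  have := (div_pos_iff.1 h1)
  rcases this with h3 | h3
  · linarith [h3.1]
  · linarith [h3.2]

/-- a bounded function cannot have derivative bounded below by a positive constant -/
lemma not_bdd {r r₁ : ℝ → ℝ} {a m : ℝ} (ha : 0 < a) (hm : 0 < m)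
    (hd : ∀ τ, 0 < τ → HasDerivAt r (r₁ τ) τ) (hb : ∀ τ, 0 < τ → |r τ| ≤ 1)
    (h : ∀ t, a ≤ t → m ≤ r₁ t) : False := by
  have h3 : 0 < 3 / m := by positivity
  have key : (fun t => r t - m * t) a ≤ (fun t => r t - m * t) (a + 3 / m) := by
    refine le_of_deriv (f := fun t => r t - m * t) (f' := fun t => r₁ t - m) (by linarith) ?_ ?_
    · intro t h1 _
      exact ((hd t (by linarith)).fun_sub ((hasDerivAt_id' t).const_mul m)).congr_deriv
        (by ring)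
    · intro t h1 _
      linarith [h t h1]
  have e : m * (a + 3 / m) = m * a + 3 := by field_simp
  simp only at key
  rw [e] at key
  have h1 := abs_le.1 (hb a ha)
  have h2 := abs_le.1 (hb (a + 3 / m) (by linarith))
  linarith [h1.1, h2.2]

lemma hasDerivAt_expm4 (t : ℝ) :
    HasDerivAt (fun t : ℝ => Real.exp (-4 * t)) (Real.exp (-4 * t) * (-4)) t := by
  have := ((hasDerivAt_id t).const_mul (-4 : ℝ)).exp
  simpa using this

lemma step1 {ℓ ρ : ℝ} {r r₁ : ℝ → ℝ}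
    (hd : ∀ τ, 0 < τ → HasDerivAt r (r₁ τ) τ)
    (hd1 : ∀ τ, 0 < τ → HasDerivAt r₁ (4 * r₁ τ - ℓ * r τ / τ ^ 2) τ)
    (hb : ∀ τ, 0 < τ → |r τ| ≤ 1) (hlim : Tendsto r atTop (𝓝 1)) (hρ : r 1 ≤ ρ) :
    4 * (1 - ρ) ≤ |ℓ| := by
  have hinv2 : ∀ t : ℝ, 0 < t →
      HasDerivAt (fun t : ℝ => |ℓ| / 4 * (t ^ 2)⁻¹) (|ℓ| / 4 * (-(2 * t) / (t ^ 2) ^ 2)) t := by
    intro t ht
    have h1 : HasDerivAt (fun t : ℝ => t ^ 2) (2 * t) t := by simpa using hasDerivAt_pow 2 t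
    exact (h1.inv (by positivity)).const_mul _
  have hz : ∀ t : ℝ, 0 < t → r₁ t ≤ |ℓ| / 4 * (t ^ 2)⁻¹ := by
    intro a ha
    by_contra hcon
    push Not at hcon
    set m := Real.exp (-4 * a) * (r₁ a - |ℓ| / 4 * (a ^ 2)⁻¹) with hm
    have hmpos : 0 < m := mul_pos (Real.exp_pos _) (by linarith)
    refine not_bdd ha hmpos hd hb ?_
    intro t hat
    have ht : 0 < t := by linarith
    have key : (fun t => Real.exp (-4 * t) * (r₁ t - |ℓ| / 4 * (t ^ 2)⁻¹)) a ≤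
        (fun t => Real.exp (-4 * t) * (r₁ t - |ℓ| / 4 * (t ^ 2)⁻¹)) t := by
      refine le_of_deriv (f := fun t => Real.exp (-4 * t) * (r₁ t - |ℓ| / 4 * (t ^ 2)⁻¹))
        (f' := fun s => Real.exp (-4 * s) * (-4) * (r₁ s - |ℓ| / 4 * (s ^ 2)⁻¹)
        + Real.exp (-4 * s) * ((4 * r₁ s - ℓ * r s / s ^ 2)
          - |ℓ| / 4 * (-(2 * s) / (s ^ 2) ^ 2))) hat ?_ ?_
      · intro s h1 _
        have hs : 0 < s := by linarith
        exact (hasDerivAt_expm4 s).mul ((hd1 s hs).sub (hinv2 s hs))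
      · intro s h1 _
        have hs : 0 < s := by linarith
        have e : Real.exp (-4 * s) * (-4) * (r₁ s - |ℓ| / 4 * (s ^ 2)⁻¹)
            + Real.exp (-4 * s) * ((4 * r₁ s - ℓ * r s / s ^ 2)
              - |ℓ| / 4 * (-(2 * s) / (s ^ 2) ^ 2))
            = Real.exp (-4 * s) * ((|ℓ| - ℓ * r s) / s ^ 2 + |ℓ| / (2 * s ^ 3)) := by
          field_simp
          ring
        rw [e]
        have h2 : ℓ * r s ≤ |ℓ| := by
          calc ℓ * r s ≤ |ℓ * r s| := le_abs_self _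
            _ = |ℓ| * |r s| := abs_mul _ _
            _ ≤ |ℓ| * 1 := mul_le_mul_of_nonneg_left (hb s hs) (abs_nonneg _)
            _ = |ℓ| := mul_one _
        have h3 : 0 ≤ |ℓ| - ℓ * r s := by linarith
        positivity
    simp only at key
    have h4 : Real.exp (-4 * t) ≤ 1 := Real.exp_le_one_iff.2 (by linarith)
    have h5 : 0 < r₁ t - |ℓ| / 4 * (t ^ 2)⁻¹ := by
      by_contra h6
      push Not at h6
      have := mul_nonpos_of_nonneg_of_nonpos (Real.exp_pos (-4 * t)).le h6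
      linarith
    have h7 : Real.exp (-4 * t) * (r₁ t - |ℓ| / 4 * (t ^ 2)⁻¹) ≤ r₁ t - |ℓ| / 4 * (t ^ 2)⁻¹ := by
      nlinarith
    have h8 : 0 ≤ |ℓ| / 4 * (t ^ 2)⁻¹ := by positivity
    linarith
  have hanti : ∀ t : ℝ, 1 ≤ t → r t ≤ r 1 + |ℓ| / 4 := by
    intro t ht
    have key : (fun t => -(r t + |ℓ| / 4 * t⁻¹)) 1 ≤ (fun t => -(r t + |ℓ| / 4 * t⁻¹)) t := by
      refine le_of_deriv (f := fun t => -(r t + |ℓ| / 4 * t⁻¹))
        (f' := fun s => -(r₁ s + |ℓ| / 4 * (-(s ^ 2)⁻¹))) ht ?_ ?_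
      · intro s h1 _
        have hs : 0 < s := by linarith
        exact ((hd s hs).add ((hasDerivAt_inv hs.ne').const_mul _)).neg
      · intro s h1 _
        have hs : 0 < s := by linarith
        have := hz s hs
        linarith
    simp only [inv_one, mul_one] at key
    have h8 : 0 ≤ |ℓ| / 4 * t⁻¹ := by
      have : 0 < t := by linarith
      positivity
    linarith
  have hfin : (1 : ℝ) ≤ r 1 + |ℓ| / 4 :=
    le_of_tendsto hlim ((eventually_ge_atTop 1).mono hanti)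
  linarith

lemma step2 {ℓ : ℝ} {r r₁ : ℝ → ℝ}
    (hd : ∀ τ, 0 < τ → HasDerivAt r (r₁ τ) τ)
    (hd1 : ∀ τ, 0 < τ → HasDerivAt r₁ (4 * r₁ τ - ℓ * r τ / τ ^ 2) τ)
    (hb : ∀ τ, 0 < τ → |r τ| ≤ 1) (hlim : Tendsto r atTop (𝓝 1)) : 0 ≤ ℓ := by
  by_contra hneg
  push Not at hneg
  have hev : ∀ᶠ t in atTop, 0 < r t := hlim.eventually (lt_mem_nhds one_pos)
  obtain ⟨T0, hT0⟩ := eventually_atTop.1 hev
  set T := max T0 1 with hT
  have hT1 : 1 ≤ T := le_max_right _ _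
  have hpos : ∀ t, T ≤ t → 0 < r t := fun t ht => hT0 t (le_trans (le_max_left _ _) ht)
  have hw : ∀ a b, T ≤ a → a < b →
      Real.exp (-4 * a) * r₁ a < Real.exp (-4 * b) * r₁ b := by
    intro a b ha hab
    refine lt_of_deriv (f := fun t => Real.exp (-4 * t) * r₁ t)
      (f' := fun s => Real.exp (-4 * s) * (-4) * r₁ s
        + Real.exp (-4 * s) * (4 * r₁ s - ℓ * r s / s ^ 2)) hab ?_ ?_
    · intro s h1 _
      have hs : 0 < s := by linarith
      exact (hasDerivAt_expm4 s).mul (hd1 s hs)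
    · intro s h1 _
      have hs : 0 < s := by linarith
      have e : Real.exp (-4 * s) * (-4) * r₁ s
          + Real.exp (-4 * s) * (4 * r₁ s - ℓ * r s / s ^ 2)
          = Real.exp (-4 * s) * ((-ℓ) * r s / s ^ 2) := by ring
      rw [e]
      have h2 : 0 < -ℓ := by linarith
      have h3 := hpos s (by linarith)
      positivity
  have hle : ∀ a, T ≤ a → Real.exp (-4 * a) * r₁ a ≤ 0 := by
    intro a ha
    by_contra hcon
    push Not at hcon
    refine not_bdd (a := a) (by linarith) hcon hd hb ?_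
    intro t hat
    rcases hat.eq_or_lt with rfl | hlt
    · have h4 : Real.exp (-4 * a) ≤ 1 := Real.exp_le_one_iff.2 (by linarith)
      have h5 : 0 < r₁ a := pos_of_mul_pos_of_pos_left' hcon
      nlinarith
    · have h1 := hw a t ha hlt
      have h4 : Real.exp (-4 * t) ≤ 1 := Real.exp_le_one_iff.2 (by linarith)
      have h5 : 0 < r₁ t := pos_of_mul_pos_of_pos_left' (lt_trans hcon h1)
      nlinarith
  have hlt : ∀ a, T ≤ a → r₁ a < 0 := by
    intro a ha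
    have h1 := hw a (a + 1) ha (by linarith)
    have h2 := hle (a + 1) (by linarith)
    by_contra h3
    push Not at h3
    have := mul_nonneg (Real.exp_pos (-4 * a)).le h3
    linarith
  have hdec : ∀ a b, T ≤ a → a < b → r b < r a := by
    intro a b ha hab
    have := lt_of_deriv (f := fun t => -r t) (f' := fun s => -r₁ s) hab
      (fun s h1 _ => (hd s (by linarith)).neg) (fun s h1 _ => by linarith [hlt s (by linarith)])
    linarith
  have h1 : (1 : ℝ) ≤ r (T + 1) :=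
    le_of_tendsto hlim ((eventually_gt_atTop (T + 1)).mono
      (fun b hb' => (hdec (T + 1) b (by linarith) hb').le))
  have h2 := hdec T (T + 1) le_rfl (by linarith)
  have h3 := (abs_le.1 (hb T (by linarith))).2
  linarith
where
  pos_of_mul_pos_of_pos_left' {s x : ℝ} (h : 0 < Real.exp s * x) : 0 < x :=
    (mul_pos_iff_of_pos_left (Real.exp_pos s)).1 h

lemma quad_nonneg {D ε ℓ q r : ℝ} (hD1 : 1 ≤ D) (hD5 : D ≤ 5) (he0 : 0 < ε) (he : ε ≤ 1 / 2)
    (hl : 25 * ε ≤ 2 * ℓ) :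
    0 ≤ (2 * D - 3 * ε / 2) * q ^ 2 - ε * (D - ε / 2) * r * q + ε / 2 * ℓ * r ^ 2 := by
  have h1 : (5 / 4 : ℝ) * q ^ 2 ≤ (2 * D - 3 * ε / 2) * q ^ 2 := by
    have : (5 / 4 : ℝ) ≤ 2 * D - 3 * ε / 2 := by linarith
    exact mul_le_mul_of_nonneg_right this (sq_nonneg q)
  have h2 : 25 / 4 * (ε * r) ^ 2 ≤ ε / 2 * ℓ * r ^ 2 := by
    have : 25 / 4 * ε ^ 2 ≤ ε / 2 * ℓ := by nlinarith
    calc 25 / 4 * (ε * r) ^ 2 = 25 / 4 * ε ^ 2 * r ^ 2 := by ring
      _ ≤ ε / 2 * ℓ * r ^ 2 := mul_le_mul_of_nonneg_right this (sq_nonneg r)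
  set u := D - ε / 2 with hu
  have hu0 : 0 ≤ u := by linarith
  have hu5 : u ≤ 5 := by linarith
  have h3 : u ^ 2 * (ε * r) ^ 2 ≤ 25 * (ε * r) ^ 2 :=
    mul_le_mul_of_nonneg_right (by nlinarith) (sq_nonneg _)
  nlinarith [sq_nonneg (q - u * (ε * r) / 2), sq_nonneg q]

theorem thm_ode : Pool.Agent.H800Z.Erg.S_ode := by
  intro ρ C₀ hρ
  set l0 := 4 * (1 - ρ) with hl0
  have hl0pos : 0 < l0 := by linarith
  set ε := min (1 / 2 : ℝ) (2 * l0 / 25) with hε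
  have he0 : 0 < ε := lt_min (by norm_num) (by positivity)
  have he1 : ε ≤ 1 / 2 := min_le_left _ _
  have he2 : ε ≤ 2 * l0 / 25 := min_le_right _ _
  refine ⟨Real.sqrt (2 * (C₀ ^ 2 + 2 * |C₀|) / l0), ε / 4, by positivity, ?_⟩
  intro ℓ r r₁ hd hd1 hb hlim hr1 hC1 hC2 τ hτ0 hτ1
  have hl := step1 hd hd1 hb hlim hr1
  have hl' := step2 hd hd1 hb hlim
  rw [abs_of_nonneg hl'] at hl
  have hl2 : l0 ≤ ℓ := hl
  set E : ℝ → ℝ := fun t => (t * r₁ t) ^ 2 + ℓ * r t ^ 2 - ε * (r t * (t * r₁ t)) with hE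
  have key : (fun t => Real.exp (-(ε / 2) * Real.log t) * E t) τ ≤
      (fun t => Real.exp (-(ε / 2) * Real.log t) * E t) 1 := by
    refine le_of_deriv (f := fun t => Real.exp (-(ε / 2) * Real.log t) * E t) (f' := fun s =>
      Real.exp (-(ε / 2) * Real.log s) * (-(ε / 2) * s⁻¹) * E s
      + Real.exp (-(ε / 2) * Real.log s) *
        (2 * (s * r₁ s) * (r₁ s + s * (4 * r₁ s - ℓ * r s / s ^ 2)) + ℓ * (2 * r s * r₁ s)
          - ε * (r₁ s * (s * r₁ s) + r s * (r₁ s + s * (4 * r₁ s - ℓ * r s / s ^ 2))))) hτ1 ?_ ?_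
    · intro s h1 _
      have hs : 0 < s := by linarith
      have hq : HasDerivAt (fun t => t * r₁ t) (r₁ s + s * (4 * r₁ s - ℓ * r s / s ^ 2)) s := by
        exact ((hasDerivAt_id' s).fun_mul (hd1 s hs)).congr_deriv (by ring)
      have hex : HasDerivAt (fun t => Real.exp (-(ε / 2) * Real.log t))
          (Real.exp (-(ε / 2) * Real.log s) * (-(ε / 2) * s⁻¹)) s :=
        ((Real.hasDerivAt_log hs.ne').const_mul (-(ε / 2))).exp
      have hq2 : HasDerivAt (fun t => (t * r₁ t) ^ 2)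
          (2 * (s * r₁ s) * (r₁ s + s * (4 * r₁ s - ℓ * r s / s ^ 2))) s := by
        exact (hq.fun_pow 2).congr_deriv (by norm_num)
      have hr2 : HasDerivAt (fun t => r t ^ 2) (2 * r s * r₁ s) s := by
        exact ((hd s hs).fun_pow 2).congr_deriv (by norm_num)
      have hEd := (hq2.add (hr2.const_mul ℓ)).sub (((hd s hs).mul hq).const_mul ε)
      exact hex.mul hEd
    · intro s h1 h2
      have hs : 0 < s := by linarith
      have e : Real.exp (-(ε / 2) * Real.log s) * (-(ε / 2) * s⁻¹) * E s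
        + Real.exp (-(ε / 2) * Real.log s) *
        (2 * (s * r₁ s) * (r₁ s + s * (4 * r₁ s - ℓ * r s / s ^ 2)) + ℓ * (2 * r s * r₁ s)
          - ε * (r₁ s * (s * r₁ s) + r s * (r₁ s + s * (4 * r₁ s - ℓ * r s / s ^ 2))))
          = Real.exp (-(ε / 2) * Real.log s) * (s⁻¹ *
            ((2 * (1 + 4 * s) - 3 * ε / 2) * (s * r₁ s) ^ 2
              - ε * ((1 + 4 * s) - ε / 2) * r s * (s * r₁ s) + ε / 2 * ℓ * r s ^ 2)) := by
        simp only [hE]
        field_simp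
        ring
      rw [e]
      have := quad_nonneg (D := 1 + 4 * s) (ε := ε) (ℓ := ℓ) (q := s * r₁ s) (r := r s)
        (by linarith) (by linarith) he0 he1 (by linarith)
      positivity
  simp only [Real.log_one, mul_zero, Real.exp_zero, one_mul] at key
  have hE1 : E 1 ≤ C₀ ^ 2 + 2 * |C₀| := by
    simp only [hE, one_mul]
    have a1 : r₁ 1 ^ 2 ≤ C₀ ^ 2 := by
      rw [← sq_abs (r₁ 1)]
      exact pow_le_pow_left₀ (abs_nonneg _) hC1 2
    have a2 : ℓ * r 1 ^ 2 ≤ |C₀| := by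
      calc ℓ * r 1 ^ 2 = (ℓ * r 1) * r 1 := by ring
        _ ≤ |(ℓ * r 1) * r 1| := le_abs_self _
        _ = |ℓ * r 1| * |r 1| := abs_mul _ _
        _ ≤ |C₀| * 1 :=
            mul_le_mul (hC2.trans (le_abs_self _)) (hb 1 one_pos) (abs_nonneg _) (abs_nonneg _)
        _ = |C₀| := mul_one _
    have a3 : -(r 1 * r₁ 1) ≤ |C₀| := by
      calc -(r 1 * r₁ 1) ≤ |r 1 * r₁ 1| := neg_le_abs _
        _ = |r 1| * |r₁ 1| := abs_mul _ _
        _ ≤ 1 * |C₀| :=
            mul_le_mul (hb 1 one_pos) (hC1.trans (le_abs_self _)) (abs_nonneg _) zero_le_one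
        _ = |C₀| := one_mul _
    have a4 : 0 ≤ |C₀| := abs_nonneg _
    nlinarith
  have hElow : l0 / 2 * r τ ^ 2 ≤ E τ := by
    simp only [hE]
    have b1 : ε ^ 2 / 4 ≤ l0 / 2 := by nlinarith
    have b2 : ε ^ 2 / 4 * r τ ^ 2 ≤ l0 / 2 * r τ ^ 2 :=
      mul_le_mul_of_nonneg_right b1 (sq_nonneg _)
    have b3 : l0 * r τ ^ 2 ≤ ℓ * r τ ^ 2 := mul_le_mul_of_nonneg_right hl2 (sq_nonneg _)
    nlinarith [sq_nonneg (τ * r₁ τ - ε * r τ / 2)]
  have hpow : (τ ^ (ε / 4)) ^ 2 * Real.exp (-(ε / 2) * Real.log τ) = 1 := by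
    rw [Real.rpow_def_of_pos hτ0, ← Real.exp_nat_mul, ← Real.exp_add]
    have : ((2 : ℕ) : ℝ) * (Real.log τ * (ε / 4)) + -(ε / 2) * Real.log τ = 0 := by
      push_cast; ring
    rw [this, Real.exp_zero]
  have hK : 0 ≤ 2 * (C₀ ^ 2 + 2 * |C₀|) / l0 := by positivity
  have hP : 0 < τ ^ (ε / 4) := Real.rpow_pos_of_pos hτ0 _
  have hEτ : E τ ≤ (τ ^ (ε / 4)) ^ 2 * (C₀ ^ 2 + 2 * |C₀|) := by
    calc E τ = (τ ^ (ε / 4)) ^ 2 * (Real.exp (-(ε / 2) * Real.log τ) * E τ) := by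
          rw [← mul_assoc, hpow, one_mul]
      _ ≤ (τ ^ (ε / 4)) ^ 2 * (C₀ ^ 2 + 2 * |C₀|) :=
          mul_le_mul_of_nonneg_left (key.trans hE1) (sq_nonneg _)
  apply abs_le_of_sq_le_sq' _ (by positivity) |> fun h => abs_le.2 h
  rw [mul_pow, Real.sq_sqrt hK]
  have : r τ ^ 2 ≤ 2 / l0 * ((τ ^ (ε / 4)) ^ 2 * (C₀ ^ 2 + 2 * |C₀|)) := by
    calc r τ ^ 2 = 2 / l0 * (l0 / 2 * r τ ^ 2) := by field_simp
      _ ≤ _ := mul_le_mul_of_nonneg_left (hElow.trans hEτ) (by positivity)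
  calc r τ ^ 2 ≤ _ := this
    _ = _ := by ring

end Pool.Agent.H586Z.Ode
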